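import Pool.Agent.V5helper26.IR.Stm

/-!
# Project IR: the tail of the increment of the lower end over a group
-/

set_option autoImplicit false

open Finset
open scoped Classical

namespace Pool.Agent.V5helper24.IR

open Pool.Agent.V5helper26.IR

section

variable {α : Type} [Fintype α] {r : α → α → Prop} {M : ℕ}

theorem om_pos (hM : 1 ≤ M) : 0 < (Om r M).card := by
  rw [Finset.card_pos]
  refine ⟨fun _ => 0, ?_⟩
  unfold Om
  rw [mem_filter, Fintype.mem_piFinset]
  exact ⟨fun _ => mem_range.2 (by omega), fun _ _ _ => le_rfl⟩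

theorem lo_mono {f : α → ℕ} {x y : α} (h : ∀ z, r z x → r z y) : lo r f x ≤ lo r f y := by
  unfold lo
  apply Finset.sup_mono
  intro z hz
  rw [mem_filter] at hz ⊢
  exact ⟨mem_univ _, h z hz.2⟩

theorem lo_le {f : α → ℕ} (hf : f ∈ Om r M) (x : α) : lo r f x ≤ f x := by
  unfold Om at hf
  rw [mem_filter] at hf
  unfold lo
  apply Finset.sup_le
  intro z hz
  rw [mem_filter] at hz
  exact hf.2 z x hz.2

theorem pr_le (hM : 1 ≤ M) {p : (α → ℕ) → Prop} {c : ℝ} (h : pr r M p ≤ c) :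
    (((Om r M).filter p).card : ℝ) ≤ c * ((Om r M).card : ℝ) := by
  unfold pr at h
  rwa [div_le_iff₀ (by exact_mod_cast om_pos hM)] at h

theorem le_pr (hM : 1 ≤ M) {p : (α → ℕ) → Prop} {c : ℝ}
    (h : (((Om r M).filter p).card : ℝ) ≤ c * ((Om r M).card : ℝ)) : pr r M p ≤ c := by
  unfold pr
  rwa [div_le_iff₀ (by exact_mod_cast om_pos hM)]

theorem ex_le (hM : 1 ≤ M) {X : (α → ℕ) → ℝ} {c : ℝ} (h : ex r M X ≤ c) :
    ∑ f ∈ Om r M, X f ≤ c * ((Om r M).card : ℝ) := by
  unfold ex at h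
  rwa [div_le_iff₀ (by exact_mod_cast om_pos hM)] at h

/-- the numerical facts at one map -/
theorem facts {B : Finset α} (hB : B.Nonempty) {y0 xf : α} (hxy : ∀ z, r z xf → r z y0)
    (hyB : ∀ y ∈ B, ∀ z, r z y0 → r z y) {f : α → ℕ} (hf : f ∈ Om r M) (hy0 : y0 ∈ B) :
    lo r f xf ≤ lo r f y0 ∧ lo r f y0 ≤ B.inf' hB f ∧ B.inf' hB f ≤ f y0 ∧
    (B.inf' hB fun y => f y - lo r f y) ≤ B.inf' hB f - lo r f y0 ∧
    B.inf' hB f ≤ B.sup (lo r f) + (B.inf' hB fun y => f y - lo r f y) ∧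
    lo r f y0 ≤ B.sup (lo r f) := by
  refine ⟨lo_mono hxy, ?_, inf'_le _ hy0, ?_, ?_, ?_⟩
  · apply le_inf'
    intro y hy
    exact (lo_mono (hyB y hy)).trans (lo_le hf y)
  · obtain ⟨y, hy, h⟩ := exists_mem_eq_inf' hB f
    rw [h]
    refine (inf'_le _ hy).trans ?_
    have h1 : lo r f y0 ≤ lo r f y := lo_mono (hyB y hy)
    omega
  · obtain ⟨y, hy, h⟩ := exists_mem_eq_inf' hB fun y => f y - lo r f y
    rw [h]
    have h1 : B.inf' hB f ≤ f y := inf'_le _ hy
    have h2 : lo r f y ≤ B.sup (lo r f) := le_sup hy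
    have h3 := lo_le hf y
    omega
  · exact le_sup (f := lo r f) hy0

end

theorem t_TAIL (hVV : S_VV) (hMIN : S_MIN) (hEXT : S_EXT) : S_TAIL := by
  intro α _ r M B y0 xf κ Λ G Δ T hM hA hy0 hxy hyB hκ hkap hΛ hG hΔ hln hΔ' hex1 hex2 hpr hT m
  have hB : B.Nonempty := ⟨y0, hy0⟩
  obtain ⟨n, hn⟩ : ∃ n : ℝ, n = ((Om r M).card : ℝ) := ⟨_, rfl⟩
  have hn0 : 0 < n := by rw [hn]; exact_mod_cast om_pos hM
  obtain ⟨b, hb⟩ : ∃ b : ℝ, b = (B.card : ℝ) := ⟨_, rfl⟩
  have hb1 : 1 ≤ b := by rw [hb]; exact_mod_cast hB.card_pos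
  have hb0 : 0 < b := by linarith
  rw [← hb] at hΛ hex1 hex2 hpr hT ⊢
  obtain ⟨X, hX⟩ : ∃ X : ℝ, X = Λ / b := ⟨_, rfl⟩
  rw [← hX] at hex1 hex2
  have hX1 : 1 ≤ X := by rw [hX, le_div_iff₀ hb0]; linarith
  have hXΛ : Λ = X * b := by rw [hX]; field_simp
  have hTX : 2 ^ 14 * X ^ 2 * b / κ ≤ T := by
    refine le_trans (le_of_eq ?_) hT
    rw [hXΛ]
    field_simp
  have hT0 : (0 : ℝ) < T := lt_of_lt_of_le (by positivity) hTX
  obtain ⟨V, hV⟩ : ∃ V : (α → ℕ) → ℕ, V = fun f => B.inf' hB fun y => f y - lo r f y := ⟨_, rfl⟩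
  obtain ⟨H, hH⟩ : ∃ H : (α → ℕ) → ℕ, H = fun f => B.inf' hB f - lo r f y0 := ⟨_, rfl⟩
  have hfacts := fun (f : α → ℕ) (hf : f ∈ Om r M) => facts (M := M) hB hxy hyB hf hy0
  have hVH : ∀ f ∈ Om r M, V f ≤ H f := by
    intro f hf
    rw [hV, hH]
    exact (hfacts f hf).2.2.2.1
  -- the union bound
  have hunion : ∀ t : ℕ, (((Om r M).filter fun f => V f < t).card : ℝ) ≤ b * (2 * t / κ * n) := by
    intro t
    have h1 : (Om r M).filter (fun f => V f < t) ⊆
        B.biUnion fun y => (Om r M).filter fun f => f y < lo r f y + t := by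
      intro f hf
      rw [mem_filter] at hf
      obtain ⟨h2, h3⟩ := hf
      rw [hV] at h3
      obtain ⟨y, hy, h4⟩ := (Finset.inf'_lt_iff hB).1 h3
      rw [mem_biUnion]
      exact ⟨y, hy, mem_filter.2 ⟨h2, by omega⟩⟩
    have h2 : (((Om r M).filter fun f => V f < t).card : ℝ) ≤
        ∑ y ∈ B, (((Om r M).filter fun f => f y < lo r f y + t).card : ℝ) := by
      have := (card_le_card h1).trans card_biUnion_le
      exact_mod_cast this
    refine h2.trans ?_
    have h3 : ∀ y ∈ B, (((Om r M).filter fun f => f y < lo r f y + t).card : ℝ) ≤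
        2 * t / κ * n := by
      intro y hy
      have h4 := (hVV α r M y hM (hA y hy y hy)).2.1 t
      have h5 : pr r M (fun f => f y < lo r f y + t) ≤ 2 * t / κ :=
        h4.trans (div_le_div_of_nonneg_left (by positivity) hκ (hkap y hy).1)
      have h6 := pr_le hM h5
      rw [← hn] at h6
      convert h6
    calc _ ≤ ∑ y ∈ B, (2 * t / κ * n) := sum_le_sum h3
      _ = _ := by rw [sum_const, nsmul_eq_mul, hb]
  -- the counts
  obtain ⟨c, hc⟩ : ∃ c : ℕ → (α → ℕ) → ℕ, c = fun t f =>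
    (Icc (max (lo r f y0) (lo r f xf + t)) (B.inf' hB f)).card := ⟨_, rfl⟩
  obtain ⟨N, hN⟩ : ∃ N : ℕ → ℝ, N = fun t => (NE r M (univ.filter fun z => r z y0)
    (univ.filter fun z => r z xf) B hB t : ℝ) := ⟨_, rfl⟩
  have hNc : ∀ t, N t = ∑ f ∈ Om r M, (c t f : ℝ) := by
    intro t
    rw [hN, hc]
    simp only [NE]
    push_cast
    rfl
  have hN0 : ∀ t, 0 ≤ N t := by
    intro t
    rw [hNc]
    exact sum_nonneg fun f _ => Nat.cast_nonneg _
  have hc0 : ∀ f ∈ Om r M, ∀ t, lo r f xf + t ≤ lo r f y0 → c t f = H f + 1 := by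
    intro f hf t ht
    have h1 := (hfacts f hf).2.1
    rw [hc, hH]
    simp only [Nat.card_Icc]
    rw [max_eq_left ht]
    omega
  have hcT : ∀ f ∈ Om r M, ∀ t, c t f ≤ H f + 1 ∧
      (c t f ≠ 0 → t ≤ H f + (lo r f y0 - lo r f xf)) := by
    intro f hf t
    obtain ⟨h0, h1, -⟩ := hfacts f hf
    rw [hc, hH]
    simp only [Nat.card_Icc]
    constructor
    · have := le_max_left (lo r f y0) (lo r f xf + t)
      omega
    · intro h2
      have := le_max_right (lo r f y0) (lo r f xf + t)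
      omega
  have hsub : ∀ s t : ℕ, N 0 * N (s + t) ≤ N s * N t := by
    intro s t
    have h1 := hEXT α r M (univ.filter fun z => r z y0) (univ.filter fun z => r z xf) B hB (by
      intro z hz
      rw [mem_filter] at hz ⊢
      exact ⟨mem_univ _, hxy z hz.2⟩) s t
    rw [hN]
    dsimp only
    exact_mod_cast h1
  -- (1)
  have s1 : n * κ / (8 * b) ≤ N 0 := by
    obtain ⟨t, ht⟩ : ∃ t : ℕ, t = ⌊κ / (4 * b)⌋₊ := ⟨_, rfl⟩
    have ht1 : (t : ℝ) ≤ κ / (4 * b) := by rw [ht]; exact Nat.floor_le (by positivity)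
    have ht2 : κ / (4 * b) < t + 1 := by rw [ht]; exact Nat.lt_floor_add_one _
    have h1 : (((Om r M).filter fun f => V f < t).card : ℝ) ≤ n / 2 := by
      refine (hunion t).trans ?_
      have : b * (2 * t / κ * n) ≤ b * (2 * (κ / (4 * b)) / κ * n) := by gcongr
      refine this.trans (le_of_eq ?_)
      field_simp
      ring
    have h2 : (((Om r M).filter fun f => ¬ V f < t).card : ℝ) = n -
        (((Om r M).filter fun f => V f < t).card : ℝ) := by
      have := card_filter_add_card_filter_not (s := Om r M) (fun f => V f < t)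
      rw [hn, ← this]
      push_cast
      ring
    rw [hNc]
    calc n * κ / (8 * b) = (n / 2) * (κ / (4 * b)) := by ring
      _ ≤ (((Om r M).filter fun f => ¬ V f < t).card : ℝ) * (t + 1) := by
          apply mul_le_mul _ ht2.le (by positivity) (Nat.cast_nonneg _)
          rw [h2]; linarith
      _ = ∑ f ∈ (Om r M).filter (fun f => ¬ V f < t), ((t : ℝ) + 1) := by
          rw [sum_const, nsmul_eq_mul]
      _ ≤ ∑ f ∈ (Om r M).filter (fun f => ¬ V f < t), (c 0 f : ℝ) := by
          apply sum_le_sum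
          intro f hf
          rw [mem_filter] at hf
          rw [hc0 f hf.1 0 (by simpa using (hfacts f hf.1).1)]
          have := hVH f hf.1
          have h3 : t ≤ H f := by omega
          push_cast
          have : (t : ℝ) ≤ H f := by exact_mod_cast h3
          linarith
      _ ≤ _ := sum_le_sum_of_subset_of_nonneg (filter_subset _ _) fun f _ _ => Nat.cast_nonneg _
  -- values at y0
  obtain ⟨v, hv⟩ : ∃ v : (α → ℕ) → ℝ, v = fun f => (f y0 : ℝ) - lo r f y0 + 1 := ⟨_, rfl⟩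
  have hVy := hVV α r M y0 hM (hA y0 hy0 y0 hy0)
  have hk4 := (hkap y0 hy0).2
  have hk1 := (hkap y0 hy0).1
  have hv1 : ∑ f ∈ Om r M, v f ≤ 4 * κ * n := by
    have h1 := ex_le hM hVy.1.2.2
    rw [← hn] at h1
    rw [hv]
    exact h1.trans (by gcongr)
  have hv2 : ∑ f ∈ Om r M, v f ^ 2 ≤ 32 * κ ^ 2 * n := by
    have h1 := ex_le hM hVy.2.2.1
    rw [← hn] at h1
    rw [hv]
    refine h1.trans ?_
    have : kap r M y0 ^ 2 ≤ (4 * κ) ^ 2 := by
      apply pow_le_pow_left₀ (by linarith) hk4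
    have h2 : 2 * kap r M y0 ^ 2 * n ≤ 2 * (4 * κ) ^ 2 * n := by gcongr
    refine h2.trans (le_of_eq (by ring))
  have hcv : ∀ f ∈ Om r M, ∀ t, (c t f : ℝ) ≤ v f := by
    intro f hf t
    have h1 := (hcT f hf t).1
    obtain ⟨-, h2, h3, -⟩ := hfacts f hf
    have h4 : c t f + lo r f y0 ≤ f y0 + 1 := by
      rw [hH] at h1
      simp only at h1
      omega
    have h5 : (c t f : ℝ) + lo r f y0 ≤ f y0 + 1 := by exact_mod_cast h4
    rw [hv]
    linarith
  have hN0v : N 0 ≤ 4 * κ * n := by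
    rw [hNc]
    exact (sum_le_sum fun f hf => hcv f hf 0).trans hv1
  -- (2)
  have s2a : ∑ f ∈ Om r M, (if G f then 0 else (c T f : ℝ)) ≤ n * κ / (64 * b) := by
    obtain ⟨C, hC⟩ : ∃ C : ℝ, C = 2 ^ 11 * κ * b := ⟨_, rfl⟩
    have hC0 : 0 < C := by rw [hC]; positivity
    have h1 : ∀ f ∈ Om r M, 2 * C * (if G f then 0 else (c T f : ℝ)) ≤
        v f ^ 2 + C ^ 2 * (if ¬ G f then 1 else 0) := by
      intro f hf
      by_cases hGf : G f
      · simp only [hGf, if_true, not_true, if_false]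
        have := sq_nonneg (v f)
        linarith
      · simp only [hGf, if_false, not_false_iff, if_true]
        have h2 := hcv f hf T
        have h3 : 2 * C * (c T f : ℝ) ≤ 2 * C * v f := by gcongr
        have h4 := sq_nonneg (v f - C)
        linarith
    have h2 := sum_le_sum h1
    rw [← mul_sum, sum_add_distrib, ← mul_sum] at h2
    have h3 : ∑ f ∈ Om r M, (if ¬ G f then (1 : ℝ) else 0) ≤ 1 / (2 ^ 18 * b ^ 2) * n := by
      have h4 := pr_le hM hpr
      rw [← hn] at h4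
      refine le_trans (le_of_eq ((Finset.sum_boole _ _).trans ?_)) h4
      congr
    have h5 : 2 * C * ∑ f ∈ Om r M, (if G f then 0 else (c T f : ℝ)) ≤
        32 * κ ^ 2 * n + C ^ 2 * (1 / (2 ^ 18 * b ^ 2) * n) := by
      refine h2.trans (add_le_add hv2 ?_)
      gcongr
    have h6 : 32 * κ ^ 2 * n + C ^ 2 * (1 / (2 ^ 18 * b ^ 2) * n) ≤ 2 * C * (n * κ / (64 * b)) := by
      have e1 : C ^ 2 * (1 / (2 ^ 18 * b ^ 2) * n) = 16 * κ ^ 2 * n := by
        rw [hC]
        field_simp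
        ring
      have e2 : 2 * C * (n * κ / (64 * b)) = 64 * κ ^ 2 * n := by
        rw [hC]
        field_simp
        ring
      rw [e1, e2]
      have : 0 ≤ κ ^ 2 * n := by positivity
      linarith
    have h7 := h5.trans h6
    exact le_of_mul_le_mul_left h7 (by positivity)
  have hmin1 := hMIN α r M B hB hM hA Λ (by rw [← hb]; exact hΛ) (fun f => if G f then 1 else 0)
    (fun f _ => by split_ifs <;> norm_num) (fun f g hfg => by
      have := hG f g hfg
      by_cases h : G f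
      · rw [if_pos h, if_pos (this.1 h)]
      · rw [if_neg h, if_neg fun h' => h (this.2 h')]) (fun f hf hψ => by
      apply hln f hf
      by_contra hcon
      exact hψ (if_neg hcon))
  have hΔ0 : ∀ f ∈ Om r M, 0 ≤ Δ f := by
    intro f hf
    refine le_trans ?_ (hΔ' f hf)
    obtain ⟨h1, h2, h3, h4, h5, h6⟩ := hfacts f hf
    have h7 : lo r f xf ≤ B.sup (lo r f) := h1.trans h6
    have : (lo r f xf : ℝ) ≤ ((B.sup (lo r f) : ℕ) : ℝ) := by exact_mod_cast h7
    linarith
  have hmin2 := hMIN α r M B hB hM hA Λ (by rw [← hb]; exact hΛ) (fun f => if G f then Δ f else 0)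
    (fun f hf => by
      split_ifs
      · exact hΔ0 f hf
      · exact le_rfl) (fun f g hfg => by
      have := hG f g hfg
      by_cases h : G f
      · rw [if_pos h, if_pos (this.1 h)]
        exact hΔ f g hfg
      · rw [if_neg h, if_neg fun h' => h (this.2 h')]) (fun f hf hψ => by
      apply hln f hf
      by_contra hcon
      exact hψ (if_neg hcon))
  rw [← hb, ← hX] at hmin1 hmin2
  have hex1' := ex_le hM hex1
  have hex2' := ex_le hM hex2
  rw [← hn] at hex1' hex2'
  have hm1 : ∑ f ∈ Om r M, (if G f then (1 : ℝ) else 0) * ((V f : ℝ) + 1) ^ 2 ≤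
      32 * X ^ 2 * n := by
    rw [hV]
    refine hmin1.trans ?_
    apply mul_le_mul_of_nonneg_left _ (by positivity)
    rw [sum_boole, hn]
    exact_mod_cast card_filter_le _ _
  have hm2 : ∑ f ∈ Om r M, (if G f then Δ f else 0) * ((V f : ℝ) + 1) ≤ 96 * X ^ 2 * n := by
    have h1 : ∑ f ∈ Om r M, (if G f then Δ f else 0) * ((V f : ℝ) + 1) ^ 2 ≤
      32 * X ^ 2 * ∑ f ∈ Om r M, (if G f then Δ f else 0) := by
      rw [hV]
      exact hmin2
    have h2 : ∀ f ∈ Om r M, 12 * X * ((if G f then Δ f else 0) * ((V f : ℝ) + 1)) ≤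
        (if G f then Δ f else 0) * ((V f : ℝ) + 1) ^ 2 + 36 * X ^ 2 * (if G f then Δ f else 0) := by
      intro f hf
      have h3 : 0 ≤ (if G f then Δ f else 0) := by
        split_ifs
        · exact hΔ0 f hf
        · exact le_rfl
      have h4 := mul_nonneg h3 (sq_nonneg ((V f : ℝ) + 1 - 6 * X))
      linarith
    have h3 := sum_le_sum h2
    rw [← mul_sum, sum_add_distrib, ← mul_sum] at h3
    have h4 : 12 * X * ∑ f ∈ Om r M, (if G f then Δ f else 0) * ((V f : ℝ) + 1) ≤
        68 * X ^ 2 * (16 * X * n) := by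
      refine h3.trans ((add_le_add_left h1 _).trans ?_)
      have h5 : 68 * X ^ 2 * ∑ f ∈ Om r M, (if G f then Δ f else 0) ≤ 68 * X ^ 2 * (16 * X * n) :=
        mul_le_mul_of_nonneg_left hex1' (by positivity)
      refine le_trans (le_of_eq ?_) h5
      ring
    have h6 : 68 * X ^ 2 * (16 * X * n) ≤ 12 * X * (96 * X ^ 2 * n) := by
      have : 0 ≤ X ^ 3 * n := by positivity
      nlinarith
    exact le_of_mul_le_mul_left (h4.trans h6) (by positivity)
  have s2b : ∑ f ∈ Om r M, (if G f then (c T f : ℝ) else 0) ≤ n * κ / (64 * b) := by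
    have h1 : ∀ f ∈ Om r M, T * (if G f then (c T f : ℝ) else 0) ≤
        (if G f then (((B.sup (lo r f) : ℕ) : ℝ) - lo r f y0) * Δ f else 0) +
        2 * ((if G f then Δ f else 0) * ((V f : ℝ) + 1)) +
        (if G f then (1 : ℝ) else 0) * ((V f : ℝ) + 1) ^ 2 := by
      intro f hf
      by_cases hGf : G f
      · simp only [hGf, if_true, one_mul]
        obtain ⟨a1, a2, a3, a4, a5, a6⟩ := hfacts f hf
        obtain ⟨b1, b2⟩ := hcT f hf T
        have hD := hΔ' f hf
        have hD0 := hΔ0 f hf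
        obtain ⟨s, hs⟩ : ∃ s : ℝ, s = ((B.sup (lo r f) : ℕ) : ℝ) - lo r f y0 := ⟨_, rfl⟩
        obtain ⟨d, hd⟩ : ∃ d : ℝ, d = (lo r f y0 : ℝ) - lo r f xf := ⟨_, rfl⟩
        have hs0 : 0 ≤ s := by
          have : (lo r f y0 : ℝ) ≤ ((B.sup (lo r f) : ℕ) : ℝ) := by exact_mod_cast a6
          linarith
        have hd0 : 0 ≤ d := by
          have : (lo r f xf : ℝ) ≤ (lo r f y0 : ℝ) := by exact_mod_cast a1
          linarith
        have hsd : s + d ≤ Δ f := by rw [hs, hd]; linarith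
        have hHr : (H f : ℝ) = ((B.inf' hB f : ℕ) : ℝ) - lo r f y0 := by
          rw [hH]
          simp only
          rw [Nat.cast_sub a2]
        have hHs : (H f : ℝ) ≤ s + V f := by
          have h3 : ((B.inf' hB f : ℕ) : ℝ) ≤ ((B.sup (lo r f) : ℕ) : ℝ) + (V f : ℝ) := by
            rw [hV]
            exact_mod_cast a5
          rw [hHr, hs]
          linarith
        rw [← hs]
        have hV0 : (0 : ℝ) ≤ V f := Nat.cast_nonneg _
        have hH0 : (0 : ℝ) ≤ H f := Nat.cast_nonneg _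
        have hmain : ((H f : ℝ) + 1) * (H f + d) ≤
            s * Δ f + 2 * (Δ f * ((V f : ℝ) + 1)) + ((V f : ℝ) + 1) ^ 2 := by
          calc ((H f : ℝ) + 1) * (H f + d) ≤ (s + V f + 1) * (s + V f + d) := by
                apply mul_le_mul (by linarith) (by linarith) (by linarith) (by linarith)
            _ ≤ (s + V f + 1) * (Δ f + V f) := by
                apply mul_le_mul_of_nonneg_left (by linarith) (by linarith)
            _ ≤ _ := by nlinarith
        by_cases hz : c T f = 0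
        · rw [hz]
          simp only [Nat.cast_zero, mul_zero]
          positivity
        · have h4 := b2 hz
          have h5 : (T : ℝ) ≤ H f + d := by
            have h6 : ((T : ℕ) : ℝ) ≤ ((H f + (lo r f y0 - lo r f xf) : ℕ) : ℝ) := by
              exact_mod_cast h4
            rw [Nat.cast_add, Nat.cast_sub a1] at h6
            rw [hd]
            exact h6
          have h7 : (c T f : ℝ) ≤ H f + 1 := by exact_mod_cast b1
          refine le_trans ?_ hmain
          calc (T : ℝ) * (c T f) ≤ (H f + d) * (H f + 1) := by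
                apply mul_le_mul h5 h7 (Nat.cast_nonneg _) (by linarith)
            _ = _ := by ring
      · simp [hGf]
    have h2 := sum_le_sum h1
    rw [← mul_sum, sum_add_distrib, sum_add_distrib, ← mul_sum] at h2
    have h3 : (T : ℝ) * ∑ f ∈ Om r M, (if G f then (c T f : ℝ) else 0) ≤ 240 * X ^ 2 * n := by
      refine h2.trans ?_
      have := add_le_add (add_le_add hex2' (mul_le_mul_of_nonneg_left hm2
        (show (0 : ℝ) ≤ 2 by norm_num))) hm1
      refine this.trans (le_of_eq (by ring))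
    have h4 : 240 * X ^ 2 * n ≤ T * (n * κ / (64 * b)) := by
      have h5 : 2 ^ 14 * X ^ 2 * b / κ * (n * κ / (64 * b)) ≤ T * (n * κ / (64 * b)) :=
        mul_le_mul_of_nonneg_right hTX (by positivity)
      refine le_trans ?_ h5
      have e : 2 ^ 14 * X ^ 2 * b / κ * (n * κ / (64 * b)) = 256 * X ^ 2 * n := by
        field_simp
        ring
      rw [e]
      have : 0 ≤ X ^ 2 * n := by positivity
      linarith
    exact le_of_mul_le_mul_left (h3.trans h4) hT0
  have s2 : 2 * N T ≤ N 0 := by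
    have h1 : N T = ∑ f ∈ Om r M, (if G f then (c T f : ℝ) else 0) +
        ∑ f ∈ Om r M, (if G f then 0 else (c T f : ℝ)) := by
      rw [hNc, ← sum_add_distrib]
      apply sum_congr rfl
      intro f _
      split_ifs <;> simp
    have h2 : n * κ / (8 * b) = 8 * (n * κ / (64 * b)) := by
      field_simp
      norm_num
    have h3 : 0 ≤ n * κ / (64 * b) := by positivity
    rw [h1]
    linarith
  -- (3)
  have hNpos : 0 < N 0 := lt_of_lt_of_le (by positivity) s1
  have s3 : ∀ k : ℕ, 2 ^ k * N (k * T) ≤ N 0 := by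
    intro k
    induction k with
    | zero => simp
    | succ k ih =>
      have h1 := hsub (k * T) T
      have h2 : N ((k + 1) * T) = N (k * T + T) := by rw [add_mul, one_mul]
      rw [h2]
      have h3 : N 0 * (2 ^ (k + 1) * N (k * T + T)) ≤ N 0 * N 0 := by
        calc N 0 * (2 ^ (k + 1) * N (k * T + T)) = 2 ^ (k + 1) * (N 0 * N (k * T + T)) := by ring
          _ ≤ 2 ^ (k + 1) * (N (k * T) * N T) := by gcongr
          _ = (2 ^ k * N (k * T)) * (2 * N T) := by ring
          _ ≤ N 0 * N 0 := mul_le_mul ih s2 (by have := hN0 T; linarith) hNpos.le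
      exact le_of_mul_le_mul_left h3 hNpos
  -- (4)
  apply le_pr hM
  rw [← hn]
  obtain ⟨g, hg⟩ : ∃ g : ℝ, g = κ / 2 ^ m := ⟨_, rfl⟩
  have hg0 : 0 < g := by rw [hg]; positivity
  have h2m : (0 : ℝ) < 2 ^ m := by positivity
  have f1 : (((Om r M).filter fun f => V f < ⌊g⌋₊).card : ℝ) ≤ 2 * b / 2 ^ m * n := by
    refine (hunion _).trans ?_
    have h1 : (⌊g⌋₊ : ℝ) ≤ g := Nat.floor_le hg0.le
    have h2 : b * (2 * (⌊g⌋₊ : ℝ) / κ * n) ≤ b * (2 * g / κ * n) := by gcongr
    refine h2.trans (le_of_eq ?_)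
    rw [hg]
    field_simp
  have f2 : (((Om r M).filter fun f => lo r f xf + 2 * m * T ≤ lo r f y0 ∧
      ¬ V f < ⌊g⌋₊).card : ℝ) ≤ 4 / 2 ^ m * n := by
    have h1 : (((Om r M).filter fun f => lo r f xf + 2 * m * T ≤ lo r f y0 ∧
      ¬ V f < ⌊g⌋₊).card : ℝ) * g ≤ N (2 * m * T) := by
      rw [hNc, ← nsmul_eq_mul, ← sum_const]
      refine le_trans (sum_le_sum fun f hf => ?_)
        (sum_le_sum_of_subset_of_nonneg (filter_subset _ _) fun f _ _ => Nat.cast_nonneg _)
      · rw [mem_filter] at hf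
        obtain ⟨h2, h3, h4⟩ := hf
        rw [hc0 f h2 _ h3]
        have h5 := hVH f h2
        have h6 : ⌊g⌋₊ ≤ H f := by omega
        have h7 : g < (⌊g⌋₊ : ℝ) + 1 := Nat.lt_floor_add_one _
        have h8 : (⌊g⌋₊ : ℝ) ≤ H f := by exact_mod_cast h6
        push_cast
        linarith
    have h2 := s3 (2 * m)
    have h3 : (((Om r M).filter fun f => lo r f xf + 2 * m * T ≤ lo r f y0 ∧
      ¬ V f < ⌊g⌋₊).card : ℝ) * (2 ^ (2 * m) * g) ≤ 4 * κ * n := by
      calc _ = 2 ^ (2 * m) * ((((Om r M).filter fun f => lo r f xf + 2 * m * T ≤ lo r f y0 ∧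
              ¬ V f < ⌊g⌋₊).card : ℝ) * g) := by ring
        _ ≤ 2 ^ (2 * m) * N (2 * m * T) := by gcongr
        _ ≤ 4 * κ * n := h2.trans hN0v
    have h4 : (2 : ℝ) ^ (2 * m) * g = 2 ^ m * κ := by
      rw [hg, two_mul, pow_add]
      field_simp
    rw [h4] at h3
    have h5 : 4 / 2 ^ m * n = (4 * κ * n) / (2 ^ m * κ) := by
      field_simp
    rw [h5, le_div_iff₀ (by positivity)]
    exact h3
  have f3 : (((Om r M).filter fun f => lo r f xf + 2 * m * T ≤ lo r f y0).card : ℝ) ≤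
      (((Om r M).filter fun f => V f < ⌊g⌋₊).card : ℝ) +
      (((Om r M).filter fun f => lo r f xf + 2 * m * T ≤ lo r f y0 ∧
      ¬ V f < ⌊g⌋₊).card : ℝ) := by
    have h1 : (Om r M).filter (fun f => lo r f xf + 2 * m * T ≤ lo r f y0) ⊆
        (Om r M).filter (fun f => V f < ⌊g⌋₊) ∪
        (Om r M).filter (fun f => lo r f xf + 2 * m * T ≤ lo r f y0 ∧ ¬ V f < ⌊g⌋₊) := by
      intro f hf
      rw [mem_filter] at hf
      rw [mem_union, mem_filter, mem_filter]
      by_cases h : V f < ⌊g⌋₊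
      · exact Or.inl ⟨hf.1, h⟩
      · exact Or.inr ⟨hf.1, hf.2, h⟩
    have h2 := (card_le_card h1).trans (card_union_le _ _)
    exact_mod_cast h2
  have f4 : 2 * b / 2 ^ m * n + 4 / 2 ^ m * n ≤ 6 * b / 2 ^ m * n := by
    rw [← add_mul, ← add_div]
    gcongr
    linarith
  have f5 := f3.trans ((add_le_add f1 f2).trans f4)
  refine le_trans (le_of_eq ?_) f5
  congr

end Pool.Agent.V5helper24.IR
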